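import Pool.Agent.H174.GM.Stmts2

set_option autoImplicit false

namespace Pool.Agent.H441.GM174

open Finset Pool.Agent.H174.GM

section basics

variable {k : ℕ}

/-- unit exponent -/
def eu (q : Fin k) : Ex k := toLex (Pi.single q (1 : ℤ))

theorem eu_same (q : Fin k) : ofLex (eu q) q = 1 := by simp [eu]

theorem eu_other {q r : Fin k} (h : r ≠ q) : ofLex (eu q) r = 0 := by simp [eu, h]

theorem ex_lt {γ δ : Ex k} (i : Fin k) (h : ∀ l, l < i → ofLex γ l = ofLex δ l)
    (hi : ofLex γ i < ofLex δ i) : γ < δ := ⟨i, h, hi⟩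

theorem ofLex_neg' (γ : Ex k) (i : Fin k) : ofLex (-γ) i = - ofLex γ i := rfl

theorem ofLex_add' (γ δ : Ex k) (i : Fin k) : ofLex (γ + δ) i = ofLex γ i + ofLex δ i := rfl

theorem ofLex_zero' (i : Fin k) : ofLex (0 : Ex k) i = 0 := rfl

theorem zero_lt_eu (q : Fin k) : (0 : Ex k) < eu q := by
  refine ex_lt q (fun l hl => ?_) ?_
  · rw [eu_other hl.ne]; rfl
  · rw [eu_same]; exact zero_lt_one

theorem neg_eu_lt (q : Fin k) : -eu q < (0 : Ex k) := by
  refine ex_lt q (fun l hl => ?_) ?_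
  · rw [ofLex_neg', eu_other hl.ne]; rfl
  · rw [ofLex_neg', eu_same]; exact neg_one_lt_zero

theorem eu_lt {j q : Fin k} (h : j < q) : eu q < eu j := by
  refine ex_lt j (fun l hl => ?_) ?_
  · rw [eu_other hl.ne, eu_other (hl.trans h).ne]
  · rw [eu_same, eu_other h.ne]; exact zero_lt_one

theorem ld_ne_zero {f : E k} {γ : Ex k} (h : Lead f γ) : f ≠ 0 := by
  rintro rfl
  exact h.1 HahnSeries.coeff_zero

theorem ld_unique {f : E k} {γ δ : Ex k} (h : Lead f γ) (h' : Lead f δ) : γ = δ := by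
  rcases lt_trichotomy γ δ with hl | hl | hl
  · exact absurd (h'.2 _ hl) h.1
  · exact hl
  · exact absurd (h.2 _ hl) h'.1

theorem ld_neg {f : E k} {γ : Ex k} (h : Lead f γ) : Lead (-f) γ := by
  refine ⟨?_, fun δ hδ => ?_⟩
  · rw [HahnSeries.coeff_neg]; exact neg_ne_zero.2 h.1
  · rw [HahnSeries.coeff_neg, h.2 δ hδ, neg_zero]

theorem ld_add {f g : E k} {γ δ : Ex k} (h : Lead f γ) (h' : Lead g δ) (hl : γ < δ) :
    Lead (f + g) γ := by
  refine ⟨?_, fun η hη => ?_⟩
  · rw [HahnSeries.coeff_add, h'.2 γ hl, add_zero]; exact h.1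
  · rw [HahnSeries.coeff_add, h.2 η hη, h'.2 η (hη.trans hl), add_zero]

theorem ld_sub {f g : E k} {γ δ : Ex k} (h : Lead f γ) (h' : Lead g δ) (hl : γ < δ) :
    Lead (f - g) γ := by
  rw [sub_eq_add_neg]; exact ld_add h (ld_neg h') hl

theorem ld_sub' {f g : E k} {γ δ : Ex k} (h : Lead f γ) (h' : Lead g δ) (hl : δ < γ) :
    Lead (f - g) δ := by
  have : f - g = -g + f := by ring
  rw [this]; exact ld_add (ld_neg h') h hl

theorem ld_one : Lead (1 : E k) 0 := by
  refine ⟨?_, fun δ hδ => ?_⟩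
  · rw [HahnSeries.coeff_one, if_pos rfl]; exact one_ne_zero
  · rw [HahnSeries.coeff_one, if_neg hδ.ne]

end basics

section nodes

variable {k : ℕ}

/-- the two roots attached to `q` -/
noncomputable def rt (q : Fin k) (b : Bool) : E k := if b then (1 - xx q)⁻¹ else (xx q)⁻¹

/-- the exponent of the node -/
def ne (q : Fin k) (b : Bool) : Ex k := if b then eu q else -eu q + -eu q

theorem lead_xx (h4 : S_XF) (q : Fin k) : Lead (xx q) (eu q) := (h4 k q).1

theorem lead_inv (h2 : S_EH2) {f : E k} {γ : Ex k} (h : Lead f γ) : Lead f⁻¹ (-γ) :=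
  (h2 k f γ h).1

theorem lead_mul (h1 : S_EH1) (j : Fin k) {f g : E k} {γ δ : Ex k} (h : Lead f γ)
    (h' : Lead g δ) : Lead (f * g) (γ + δ) := (h1 k j 0 0 f g).2.2.2.2.2.2.2.2 γ δ h h'

theorem lead_one_sub (h4 : S_XF) (q : Fin k) : Lead (1 - xx q : E k) 0 :=
  ((h4 k q).2.2.2.2.1 q).1

theorem xx_ne (h4 : S_XF) (q : Fin k) : (xx q : E k) ≠ 0 := ld_ne_zero (lead_xx h4 q)

theorem one_sub_ne (h4 : S_XF) (q : Fin k) : (1 - xx q : E k) ≠ 0 := ld_ne_zero (lead_one_sub h4 q)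

theorem lead_rt_false (h2 : S_EH2) (h4 : S_XF) (q : Fin k) : Lead (rt q false) (-eu q) := by
  simp only [rt, Bool.false_eq_true, if_false]
  exact lead_inv h2 (lead_xx h4 q)

theorem lead_rt_true (h2 : S_EH2) (h4 : S_XF) (q : Fin k) : Lead (rt q true) 0 := by
  simp only [rt, if_true]
  have := lead_inv h2 (lead_one_sub h4 q)
  rwa [neg_zero] at this

theorem lead_one_sub_rt_false (h2 : S_EH2) (h4 : S_XF) (q : Fin k) :
    Lead (1 - rt q false) (-eu q) :=
  ld_sub' ld_one (lead_rt_false h2 h4 q) (neg_eu_lt q)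

theorem one_sub_rt_true (h4 : S_XF) (q : Fin k) :
    1 - rt q true = - (xx q * (1 - xx q)⁻¹) := by
  have := one_sub_ne h4 q
  simp only [rt, if_true]
  field_simp
  ring

theorem lead_one_sub_rt_true (h1 : S_EH1) (h2 : S_EH2) (h4 : S_XF) (q : Fin k) :
    Lead (1 - rt q true) (eu q) := by
  rw [one_sub_rt_true h4]
  have := lead_mul h1 q (lead_xx h4 q) (lead_inv h2 (lead_one_sub h4 q))
  rw [neg_zero, add_zero] at this
  exact ld_neg this

theorem lead_nd (h1 : S_EH1) (h2 : S_EH2) (h4 : S_XF) (q : Fin k) (b : Bool) :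
    Lead (uu (rt q b)) (ne q b) := by
  cases b
  · have := lead_mul h1 q (lead_rt_false h2 h4 q) (lead_one_sub_rt_false h2 h4 q)
    simpa [ne, uu] using this
  · have := lead_mul h1 q (lead_rt_true h2 h4 q) (lead_one_sub_rt_true h1 h2 h4 q)
    rw [zero_add] at this
    simpa [ne, uu] using this

theorem ne_apply_other {q r : Fin k} (h : r ≠ q) (b : Bool) : ofLex (ne q b) r = 0 := by
  cases b
  · simp only [ne, Bool.false_eq_true, if_false]
    rw [ofLex_add', ofLex_neg', eu_other h]; rfl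
  · simp only [ne, if_true]
    exact eu_other h

theorem ne_apply_false (q : Fin k) : ofLex (ne q false) q = -2 := by
  simp only [ne, Bool.false_eq_true, if_false]
  rw [ofLex_add', ofLex_neg', eu_same]; rfl

theorem ne_apply_true (q : Fin k) : ofLex (ne q true) q = 1 := by
  simp only [ne, if_true]
  exact eu_same q

theorem ne_inj {q q' : Fin k} {b b' : Bool} (h : ne q b = ne q' b') : q = q' ∧ b = b' := by
  have hq : q = q' := by
    by_contra hne
    have h1 : ofLex (ne q b) q = ofLex (ne q' b') q := by rw [h]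
    rw [ne_apply_other hne] at h1
    cases b
    · rw [ne_apply_false] at h1; omega
    · rw [ne_apply_true] at h1; omega
  subst hq
  refine ⟨rfl, ?_⟩
  have h1 : ofLex (ne q b) q = ofLex (ne q b') q := by rw [h]
  cases b <;> cases b'
  · rfl
  · rw [ne_apply_false, ne_apply_true] at h1; omega
  · rw [ne_apply_false, ne_apply_true] at h1; omega
  · rfl

theorem lead_uu_xx (h1 : S_EH1) (h4 : S_XF) (j : Fin k) : Lead (uu (xx j)) (eu j) := by
  have := lead_mul h1 j (lead_xx h4 j) (lead_one_sub h4 j)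
  rw [add_zero] at this
  exact this

theorem uu_xx_ne (h1 : S_EH1) (h2 : S_EH2) (h4 : S_XF) {j q : Fin k} (h : q ≠ j) (b : Bool) :
    uu (xx j) ≠ uu (rt q b) := by
  intro he
  have hl := lead_uu_xx h1 h4 j
  rw [he] at hl
  have := ld_unique hl (lead_nd h1 h2 h4 q b)
  have h3 : ofLex (eu j) j = ofLex (ne q b) j := by rw [this]
  rw [eu_same, ne_apply_other h.symm] at h3
  omega

/-- constants are not equal to a variable -/
theorem xx_ne_const (h4 : S_XF) (q : Fin k) (c : ℚ) : (xx q : E k) ≠ algebraMap ℚ (E k) c := by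
  intro he
  have hf : Free q (algebraMap ℚ (E k) c) := (h4 k q).2.2.2.2.2.1 c
  rw [← he] at hf
  have := hf.2 _ (lead_xx h4 q).1
  rw [eu_same] at this
  omega

theorem one_sub_two_rt_ne (h4 : S_XF) (q : Fin k) (b : Bool) : 1 - 2 * rt q b ≠ 0 := by
  intro h
  cases b
  · apply xx_ne_const h4 q 2
    have hx := xx_ne h4 q
    simp only [rt, Bool.false_eq_true, if_false] at h
    have h2 : (xx q : E k) - 2 = xx q * (1 - 2 * (xx q)⁻¹) := by field_simp
    rw [h, mul_zero] at h2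
    rw [map_ofNat]
    exact sub_eq_zero.1 h2
  · apply xx_ne_const h4 q (-1)
    have hx := one_sub_ne h4 q
    simp only [rt, if_true] at h
    have h2 : -(xx q : E k) - 1 = (1 - xx q) * (1 - 2 * (1 - xx q)⁻¹) := by field_simp; ring
    rw [h, mul_zero] at h2
    rw [map_neg, map_one]
    linear_combination -h2

end nodes

section field

variable {k : ℕ}

/-- the subfield of elements not involving `x_j` -/
noncomputable def LF (h4 : S_XF) (j : Fin k) : Subfield (E k) where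
  carrier := {f | Free j f}
  mul_mem' {a b} ha hb := ((h4 k j).2.2.2.2.2.2.1 a b ha hb).2
  one_mem' := by
    have := (h4 k j).2.2.2.2.2.1 1
    rwa [map_one] at this
  add_mem' {a b} ha hb := ((h4 k j).2.2.2.2.2.2.1 a b ha hb).1
  zero_mem' := by
    have := (h4 k j).2.2.2.2.2.1 0
    rwa [map_zero] at this
  neg_mem' {a} ha := ((h4 k j).2.2.2.2.2.2.2 a ha).1
  inv_mem' a ha := ((h4 k j).2.2.2.2.2.2.2 a ha).2

theorem mem_LF (h4 : S_XF) (j : Fin k) {f : E k} : f ∈ LF h4 j ↔ Free j f := Iff.rfl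

theorem xx_mem (h4 : S_XF) {j q : Fin k} (h : q ≠ j) : (xx q : E k) ∈ LF h4 j :=
  (h4 k j).2.2.2.1 q h

theorem rt_mem (h4 : S_XF) {j q : Fin k} (h : q ≠ j) (b : Bool) : rt q b ∈ LF h4 j := by
  cases b
  · simp only [rt, Bool.false_eq_true, if_false]
    exact inv_mem (xx_mem h4 h)
  · simp only [rt, if_true]
    exact inv_mem (sub_mem (one_mem _) (xx_mem h4 h))

theorem uu_mem (h4 : S_XF) {j : Fin k} {f : E k} (h : f ∈ LF h4 j) : uu f ∈ LF h4 j :=
  mul_mem h (sub_mem (one_mem _) h)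

theorem ge_sub (h1 : S_EH1) {j : Fin k} {a : ℤ} {f g : E k} (hf : Ge j a f) (hg : Ge j a g) :
    Ge j a (f - g) := by
  rw [sub_eq_add_neg]
  exact (h1 k j a a f (-g)).2.2.1 hf ((h1 k j a a g g).2.2.2.2.1 hg)

theorem le_sub (h1 : S_EH1) {j : Fin k} {a : ℤ} {f g : E k} (hf : Le j a f) (hg : Le j a g) :
    Le j a (f - g) := by
  rw [sub_eq_add_neg]
  exact (h1 k j a a f (-g)).2.2.2.1 hf ((h1 k j a a g g).2.2.2.2.2.1 hg)

theorem ge_xx (h1 : S_EH1) (h4 : S_XF) (j : Fin k) : Ge j 0 (xx j : E k) :=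
  (h1 k j 1 0 (xx j) (xx j)).2.2.2.2.2.2.1 (h4 k j).2.1 (by norm_num)

/-- regular terms have residue zero -/
theorem res_reg (h1 : S_EH1) (h2 : S_EH2) (h3 : S_EH3) {j : Fin k} {c f : E k} {γ : Ex k}
    (hc : Free j c) (hl : Lead f γ) (hγ : ofLex γ j = 0) (hf : Ge j 0 f) :
    res (c * f⁻¹) = 0 := by
  have h := (h2 k f γ hl).2.1 j
  rw [hγ, neg_zero] at h
  have := (h1 k j 0 0 c f⁻¹).1 hc.1 (h hf)
  rw [add_zero] at this
  exact (h3 k).2.2.1 j _ this

theorem split_node {K : Type} [Field K] (x a c : K) (h : x - a ≠ 0) (h' : x - (1 - a) ≠ 0) :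
    c * (1 - 2 * x) / (uu x - uu a) = c * (x - a)⁻¹ + c * (x - (1 - a))⁻¹ := by
  have e : uu x - uu a = -((x - a) * (x - (1 - a))) := by simp only [uu]; ring
  rw [e, div_neg, ← neg_div, div_eq_iff (mul_ne_zero h h')]
  have e1 : (c * (x - a)⁻¹ + c * (x - (1 - a))⁻¹) * ((x - a) * (x - (1 - a)))
      = c * (((x - a)⁻¹ * (x - a)) * (x - (1 - a)) + ((x - (1 - a))⁻¹ * (x - (1 - a))) * (x - a)) := by
    ring
  rw [e1, inv_mul_cancel₀ h, inv_mul_cancel₀ h']
  ring

/-- the residue of `c (1 - 2 x_j)/(u - s)` vanishes as soon as `res (x_j⁻¹ c) = 0` -/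
theorem res_node (h1 : S_EH1) (h2 : S_EH2) (h3 : S_EH3) (h4 : S_XF) {j q : Fin k} (h : q ≠ j)
    (b : Bool) (c : E k) (hc : Free j c) (h0 : res ((xx j)⁻¹ * c) = 0) :
    res (c * (1 - 2 * xx j) / (uu (xx j) - uu (rt q b))) = 0 := by
  have hr : Free j (rt q b) := rt_mem h4 h b
  have hr' : Free j (1 - rt q b) := sub_mem (one_mem (LF h4 j)) (rt_mem h4 h b)
  have hg1 : Ge j 0 (xx j - rt q b) := ge_sub h1 (ge_xx h1 h4 j) hr.1
  have hg2 : Ge j 0 (xx j - (1 - rt q b)) := ge_sub h1 (ge_xx h1 h4 j) hr'.1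
  -- first factor
  have hA : ∃ γ, Lead (xx j - rt q b) γ ∧ ofLex γ j = 0 := by
    cases b
    · refine ⟨-eu q, ld_sub' (lead_xx h4 j) (lead_rt_false h2 h4 q)
        ((neg_eu_lt q).trans (zero_lt_eu j)), ?_⟩
      rw [ofLex_neg', eu_other h.symm, neg_zero]
    · exact ⟨0, ld_sub' (lead_xx h4 j) (lead_rt_true h2 h4 q) (zero_lt_eu j), rfl⟩
  obtain ⟨γ, hγ, hγ0⟩ := hA
  have r1 : res (c * (xx j - rt q b)⁻¹) = 0 := res_reg h1 h2 h3 hc hγ hγ0 hg1
  -- second factor
  have hB : xx j - (1 - rt q b) ≠ 0 ∧ res (c * (xx j - (1 - rt q b))⁻¹) = 0 := by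
    cases b
    · have hl : Lead (xx j - (1 - rt q false)) (-eu q) :=
        ld_sub' (lead_xx h4 j) (lead_one_sub_rt_false h2 h4 q)
          ((neg_eu_lt q).trans (zero_lt_eu j))
      refine ⟨ld_ne_zero hl, res_reg h1 h2 h3 hc hl ?_ hg2⟩
      rw [ofLex_neg', eu_other h.symm, neg_zero]
    · rcases lt_or_gt_of_ne h with hlt | hlt
      · -- q < j
        have hl : Lead (xx j - (1 - rt q true)) (eu j) :=
          ld_sub (lead_xx h4 j) (lead_one_sub_rt_true h1 h2 h4 q) (eu_lt hlt)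
        have hne := ld_ne_zero hl
        refine ⟨hne, ?_⟩
        have hx : Le j 1 (xx j : E k) := (h4 k j).2.2.1
        have hle : Le j 1 (xx j - (1 - rt q true)) := le_sub h1 hx
          ((h1 k j 0 1 (1 - rt q true) (1 - rt q true)).2.2.2.2.2.2.2.1 hr'.2 (by norm_num))
        have hi : Le j (-1) (xx j - (1 - rt q true))⁻¹ := by
          have := (h2 k _ _ hl).2.2 j
          rw [eu_same] at this
          exact this hle
        have hix : Le j (-1) (xx j : E k)⁻¹ := by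
          have := (h2 k _ _ (lead_xx h4 j)).2.2 j
          rw [eu_same] at this
          exact this hx
        have e : c * (xx j - (1 - rt q true))⁻¹ = (xx j)⁻¹ * c +
            c * ((1 - rt q true) * ((xx j)⁻¹ * (xx j - (1 - rt q true))⁻¹)) := by
          have hxn := xx_ne h4 j
          have : (xx j - (1 - rt q true))⁻¹ = (xx j)⁻¹ +
              (1 - rt q true) * ((xx j)⁻¹ * (xx j - (1 - rt q true))⁻¹) := by
            field_simp
            ring
          conv_lhs => rw [this]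
          ring
        rw [e, (h3 k).1, h0, zero_add]
        apply (h3 k).2.2.2 j
        have m1 := (h1 k j (-1) (-1) _ _).2.1 hix hi
        have m2 := (h1 k j 0 (-1 + -1) _ _).2.1 hr'.2 m1
        have m3 := (h1 k j 0 (0 + (-1 + -1)) _ _).2.1 hc.2 m2
        exact m3
      · -- j < q
        have hl : Lead (xx j - (1 - rt q true)) (eu q) :=
          ld_sub' (lead_xx h4 j) (lead_one_sub_rt_true h1 h2 h4 q) (eu_lt hlt)
        refine ⟨ld_ne_zero hl, res_reg h1 h2 h3 hc hl ?_ hg2⟩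
        exact eu_other h.symm
  rw [split_node _ _ _ (ld_ne_zero hγ) hB.1, (h3 k).1, r1, hB.2, add_zero]

end field

section products

theorem d2_factor {K : Type} [Field K] (u y : K) (h : y ≠ 0) (h' : 1 - y ≠ 0) :
    d2 u (uu y) = uu y ^ 2 * ((u - uu y⁻¹) * (u - uu (1 - y)⁻¹)) := by
  simp only [d2, uu]
  field_simp
  ring

theorem d2_deriv {K : Type} [Field K] (y : K) (h : y ≠ 0) (h' : 1 - y ≠ 0) :
    (1 - 3 * uu y + 2 * uu y⁻¹ * uu y ^ 2 = uu y ^ 2 * (uu y⁻¹ - uu (1 - y)⁻¹)) ∧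
    (1 - 3 * uu y + 2 * uu (1 - y)⁻¹ * uu y ^ 2 = uu y ^ 2 * (uu (1 - y)⁻¹ - uu y⁻¹)) := by
  constructor
  · simp only [uu]
    field_simp
    ring
  · simp only [uu]
    field_simp
    ring

variable {k : ℕ}

theorem d2_rt (h4 : S_XF) (q : Fin k) (u : E k) :
    d2 u (uu (xx q)) = uu (xx q) ^ 2 * ((u - uu (rt q false)) * (u - uu (rt q true))) := by
  simp only [rt, Bool.false_eq_true, if_false, if_true]
  exact d2_factor u _ (xx_ne h4 q) (one_sub_ne h4 q)

theorem d2_rt' (h4 : S_XF) (q : Fin k) (b : Bool) :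
    1 - 3 * uu (xx q) + 2 * uu (rt q b) * uu (xx q) ^ 2
      = uu (xx q) ^ 2 * (uu (rt q b) - uu (rt q (!b))) := by
  cases b
  · simp only [rt, Bool.false_eq_true, if_false, if_true, Bool.not_false]
    exact (d2_deriv _ (xx_ne h4 q) (one_sub_ne h4 q)).1
  · simp only [rt, Bool.false_eq_true, if_false, if_true, Bool.not_true]
    exact (d2_deriv _ (xx_ne h4 q) (one_sub_ne h4 q)).2

/-- the index type of the nodes -/
abbrev Io (j : Fin k) : Type := {q : Fin k // q ≠ j} × Bool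

/-- the nodes -/
noncomputable def nd (j : Fin k) (i : Io j) : E k := uu (rt i.1.1 i.2)

theorem nd_inj (h1 : S_EH1) (h2 : S_EH2) (h4 : S_XF) (j : Fin k) :
    Function.Injective (nd j) := by
  rintro ⟨⟨q, hq⟩, b⟩ ⟨⟨q', hq'⟩, b'⟩ he
  have l1 := lead_nd h1 h2 h4 q b
  have l2 := lead_nd h1 h2 h4 q' b'
  have he' : uu (rt q b) = uu (rt q' b') := he
  rw [he'] at l1
  obtain ⟨rfl, rfl⟩ := ne_inj (ld_unique l1 l2)
  rfl

theorem prod_Io {M : Type} [CommMonoid M] (j : Fin k) (F : Fin k → Bool → M) :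
    ∏ i : Io j, F i.1.1 i.2 = ∏ q ∈ univ.filter (fun q => q ≠ j), F q false * F q true := by
  rw [Fintype.prod_prod_type]
  have : ∀ q : {q : Fin k // q ≠ j}, ∏ b : Bool, F q.1 b = F q.1 false * F q.1 true := by
    intro q
    rw [Fintype.prod_bool, mul_comm]
  simp only [this]
  rw [Finset.prod_subtype (univ.filter (fun q => q ≠ j)) (p := fun q => q ≠ j)]
  intro x
  simp

theorem prod_Io_ne {M : Type} [CommMonoid M] (j : Fin k) (F : Fin k → Bool → M) (i : Io j) :
    ∏ i' ∈ univ.filter (fun i' : Io j => i' ≠ i), F i'.1.1 i'.2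
      = F i.1.1 (!i.2) * ∏ r ∈ univ.filter (fun r => r ≠ j ∧ r ≠ i.1.1), F r false * F r true := by
  obtain ⟨⟨q, hq⟩, b⟩ := i
  rw [Finset.prod_filter]
  have e1 : ∀ i' : Io j, (if i' ≠ (⟨⟨q, hq⟩, b⟩ : Io j) then F i'.1.1 i'.2 else 1)
      = (fun (r : Fin k) (c : Bool) => if r = q ∧ c = b then 1 else F r c) i'.1.1 i'.2 := by
    rintro ⟨⟨r, hr⟩, c⟩
    by_cases h : r = q ∧ c = b
    · obtain ⟨rfl, rfl⟩ := h
      simp
    · rw [if_pos]
      · beta_reduce
        rw [if_neg h]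
      · intro he
        apply h
        have := congrArg (fun x : Io j => (x.1.1, x.2)) he
        simpa using this
  rw [Finset.prod_congr rfl (fun i' _ => e1 i'),
    prod_Io j (fun (r : Fin k) (c : Bool) => if r = q ∧ c = b then 1 else F r c)]
  have hmem : q ∈ univ.filter (fun q => q ≠ j) := by simp [hq]
  rw [← Finset.mul_prod_erase _ _ hmem]
  congr 1
  · cases b <;> simp
  · have hs : (univ.filter (fun q => q ≠ j)).erase q
        = univ.filter (fun r => r ≠ j ∧ r ≠ q) := by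
      ext r
      simp [and_comm]
    rw [hs]
    apply Finset.prod_congr rfl
    intro r hr
    have hrq : r ≠ q := (Finset.mem_filter.1 hr).2.2
    simp [hrq]

theorem card_Io (j : Fin k) : Fintype.card (Io j) = 2 * (k - 1) := by
  rw [Fintype.card_prod, Fintype.card_bool]
  have : Fintype.card {q : Fin k // q ≠ j} = k - 1 := by
    rw [Fintype.card_subtype_compl]
    simp
  rw [this, mul_comm]

end products

section alg

variable {K : Type} [Field K]

theorem alg1 (p t b uN V W : K) (h : p = t * b) :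
    p / (uN * (V * W)) = V⁻¹ * t * (b / (uN * W)) := by
  subst h
  rw [mul_left_comm uN V W, div_eq_mul_inv, div_eq_mul_inv, mul_inv]
  ring

theorem alg2 (V t c u s : K) (N : ℕ) :
    V⁻¹ * t * (c * (1 / (u - s) - ∑ l ∈ Finset.range N, s ^ l / u ^ (l + 1)))
      = V⁻¹ * c * t / (u - s) - ∑ l ∈ Finset.range N, V⁻¹ * c * s ^ l * t / u ^ (l + 1) := by
  have e : ∑ l ∈ Finset.range N, V⁻¹ * c * s ^ l * t / u ^ (l + 1)
      = V⁻¹ * c * t * ∑ l ∈ Finset.range N, s ^ l / u ^ (l + 1) := by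
    rw [Finset.mul_sum]
    apply Finset.sum_congr rfl
    intro l _
    rw [div_eq_mul_inv, div_eq_mul_inv]
    ring
  rw [e]
  generalize ∑ l ∈ Finset.range N, s ^ l / u ^ (l + 1) = T
  rw [div_eq_mul_inv, div_eq_mul_inv]
  ring

theorem alg3 (V t a u : K) {m N : ℕ} (h : m ≤ N) (hu : u ≠ 0) :
    V⁻¹ * t * (a * u ^ m / u ^ N) = (V⁻¹ * a) * t / u ^ (N - m) := by
  obtain ⟨d, rfl⟩ := Nat.exists_eq_add_of_le h
  rw [Nat.add_sub_cancel_left, pow_add, mul_comm a, mul_div_mul_left _ _ (pow_ne_zero m hu),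
    div_eq_mul_inv, div_eq_mul_inv]
  ring

theorem alg4 (z v V b sN s s' H : K) (hz : z ≠ 0) :
    (v ^ 2 * V)⁻¹ * (b / (sN * ((s - s') * H)))
      = z * b / (z * (v ^ 2 * (s - s')) * sN * (V * H)) := by
  have e : z * (v ^ 2 * (s - s')) * sN * (V * H)
      = z * ((v ^ 2 * V) * (sN * ((s - s') * H))) := by ring
  rw [e, mul_div_mul_left _ _ hz]
  generalize sN * ((s - s') * H) = R
  generalize v ^ 2 * V = Q
  rw [div_eq_mul_inv, div_eq_mul_inv, mul_inv]
  ring

end alg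

section main

variable {k : ℕ}

/-- the residue as an additive map -/
noncomputable def resH (h3 : S_EH3) (k : ℕ) : E k →+ ℚ where
  toFun := res
  map_zero' := HahnSeries.coeff_zero
  map_add' := (h3 k).1

theorem res_sum (h3 : S_EH3) {ι : Type} (s : Finset ι) (f : ι → E k) :
    res (∑ i ∈ s, f i) = ∑ i ∈ s, res (f i) := map_sum (resH h3 k) f s

theorem res_sub (h3 : S_EH3) (f g : E k) : res (f - g) = res f - res g :=
  map_sub (resH h3 k) f g

theorem res_add (h3 : S_EH3) (f g : E k) : res (f + g) = res f + res g := (h3 k).1 f g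

/-- the coefficient of BAR2, divided by the leading coefficient, is `Cof` -/
theorem cof_eq (h4 : S_XF) (j : Fin k) (N : ℕ) (P B : Polynomial (E k))
    (hev : ∀ a : E k, P.eval a = (1 - 2 * a) * B.eval (uu a)) (i : Io j) :
    (∏ q ∈ univ.filter (fun q => q ≠ j), uu (xx q : E k) ^ 2)⁻¹ *
      (B.eval (nd j i) / (nd j i ^ N * ∏ i' ∈ univ.filter (fun i' => i' ≠ i), (nd j i - nd j i')))
      = Cof j i.1.1 N P (rt i.1.1 i.2) := by
  have hp := prod_Io_ne j (fun q b => nd j i - uu (rt q b)) i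
  have hp' : ∏ i' ∈ univ.filter (fun i' => i' ≠ i), (nd j i - nd j i')
      = (nd j i - uu (rt i.1.1 (!i.2))) * ∏ r ∈ univ.filter (fun r => r ≠ j ∧ r ≠ i.1.1),
        (nd j i - uu (rt r false)) * (nd j i - uu (rt r true)) := hp
  have hd : ∏ r ∈ univ.filter (fun r => r ≠ j ∧ r ≠ i.1.1), d2 (uu (rt i.1.1 i.2)) (uu (xx r))
      = (∏ r ∈ univ.filter (fun r => r ≠ j ∧ r ≠ i.1.1), uu (xx r : E k) ^ 2) *
        ∏ r ∈ univ.filter (fun r => r ≠ j ∧ r ≠ i.1.1),
          (nd j i - uu (rt r false)) * (nd j i - uu (rt r true)) := by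
    rw [← Finset.prod_mul_distrib]
    exact Finset.prod_congr rfl (fun r _ => d2_rt h4 r (uu (rt i.1.1 i.2)))
  rw [hp']
  unfold Cof
  rw [hev, d2_rt' h4, hd]
  have hmem : i.1.1 ∈ univ.filter (fun q => q ≠ j) := by simp [i.1.2]
  rw [← Finset.mul_prod_erase _ _ hmem]
  have hs : (univ.filter (fun q => q ≠ j)).erase i.1.1
      = univ.filter (fun r => r ≠ j ∧ r ≠ i.1.1) := by
    ext r
    simp [and_comm]
  rw [hs]
  have hnz := one_sub_two_rt_ne h4 i.1.1 i.2
  have hnd : uu (rt i.1.1 i.2) = nd j i := rfl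
  rw [hnd]
  exact alg4 _ _ _ _ _ _ _ _ hnz

theorem eval_mem {K : Type} [Field K] (L : Subfield K) (B : Polynomial K)
    (hB : ∀ i, B.coeff i ∈ L) (x : K) (hx : x ∈ L) : B.eval x ∈ L := by
  rw [Polynomial.eval_eq_sum_range]
  exact sum_mem fun i _ => mul_mem (hB i) (pow_mem hx i)

end main

set_option maxHeartbeats 400000 in
theorem bar (h1 : S_EH1) (h2 : S_EH2) (h3 : S_EH3) (h4 : S_XF) (h5 : S_ODD) (h6 : S_BAR1)
    (h7 : S_BAR2) : Pool.Agent.H174.GM.S_BAR := by
  intro k j N P hN hfree hodd hdeg hres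
  by_cases hP : P = 0
  · rw [hP, Polynomial.eval_zero, zero_div]
    exact HahnSeries.coeff_zero
  have hlift : P ∈ Polynomial.lifts (LF h4 j).subtype := by
    rw [Polynomial.lifts_iff_coeff_lifts]
    intro n
    exact ⟨⟨P.coeff n, hfree n⟩, rfl⟩
  obtain ⟨PL, hPL⟩ := (Polynomial.mem_lifts _).1 hlift
  have hinj : Function.Injective (Polynomial.map (LF h4 j).subtype) :=
    Polynomial.map_injective _ (LF h4 j).subtype.injective
  have hoddL : PL.comp (1 - Polynomial.X) = -PL := by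
    apply hinj
    rw [Polynomial.map_comp, Polynomial.map_neg, hPL, Polynomial.map_sub, Polynomial.map_one,
      Polynomial.map_X]
    exact hodd
  have hPL0 : PL ≠ 0 := by
    rintro rfl
    apply hP
    rw [← hPL, Polynomial.map_zero]
  have hc1 : CharZero (E k) := algebraRat.charZero (E k)
  have hc2 : CharZero (LF h4 j) := RingHom.charZero (LF h4 j).subtype
  obtain ⟨BL, hB, hBdeg⟩ := h6 (LF h4 j) PL hoddL hPL0
  obtain ⟨B, hBdef⟩ : ∃ B : Polynomial (E k), B = BL.map (LF h4 j).subtype := ⟨_, rfl⟩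
  have hBP : P = (1 - 2 * Polynomial.X) * B.comp (Polynomial.X * (1 - Polynomial.X)) := by
    rw [← hPL, hB, hBdef, Polynomial.map_mul, Polynomial.map_comp, Polynomial.map_mul,
      Polynomial.map_sub, Polynomial.map_sub, Polynomial.map_mul, Polynomial.map_one,
      Polynomial.map_X]
    simp
  have hPd : P.natDegree = 2 * B.natDegree + 1 := by
    rw [← hPL, hBdef, Polynomial.natDegree_map, Polynomial.natDegree_map]
    exact hBdeg
  have hevP : ∀ a : E k, P.eval a = (1 - 2 * a) * B.eval (uu a) := by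
    intro a
    rw [hBP]
    simp [uu]
  have hBL : ∀ i, B.coeff i ∈ LF h4 j := by
    intro i
    rw [hBdef, Polynomial.coeff_map]
    exact (BL.coeff i).2
  have hndL : ∀ i : Io j, nd j i ∈ LF h4 j := fun i => uu_mem h4 (rt_mem h4 i.1.2 i.2)
  have hBd : B.natDegree + 2 ≤ N + Fintype.card (Io j) := by
    rw [card_Io]
    omega
  obtain ⟨S, hSL, hSd, hS⟩ := h7 (E k) (LF h4 j) (Io j) (nd j) N B hndL hBL
    (nd_inj h1 h2 h4 j) (fun i => ld_ne_zero (lead_nd h1 h2 h4 i.1.1 i.2)) hBd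
  have hu0 : uu (xx j : E k) ≠ 0 := ld_ne_zero (lead_uu_xx h1 h4 j)
  have hus : ∀ i : Io j, uu (xx j) ≠ nd j i := fun i => uu_xx_ne h1 h2 h4 i.1.2 i.2
  have hprod : ∏ q ∈ univ.filter (fun q => q ≠ j), d2 (uu (xx j)) (uu (xx q))
      = (∏ q ∈ univ.filter (fun q => q ≠ j), uu (xx q : E k) ^ 2) *
        ∏ i : Io j, (uu (xx j) - nd j i) := by
    rw [Finset.prod_congr rfl (fun q _ => d2_rt h4 q (uu (xx j))), Finset.prod_mul_distrib]
    congr 1
    exact (prod_Io j (fun q b => uu (xx j : E k) - uu (rt q b))).symm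
  obtain ⟨V, hV⟩ : ∃ V : E k, V = ∏ q ∈ univ.filter (fun q => q ≠ j), uu (xx q : E k) ^ 2 :=
    ⟨_, rfl⟩
  have hVL : V⁻¹ ∈ LF h4 j := by
    rw [hV]
    refine inv_mem (prod_mem fun q hq => pow_mem (uu_mem h4 (xx_mem h4 ?_)) 2)
    exact (Finset.mem_filter.1 hq).2
  obtain ⟨c, hc⟩ : ∃ c : Io j → E k, c = fun i => B.eval (nd j i) /
      (nd j i ^ N * ∏ i' ∈ univ.filter (fun i' => i' ≠ i), (nd j i - nd j i')) := ⟨_, rfl⟩
  have hcL : ∀ i, c i ∈ LF h4 j := by
    intro i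
    rw [hc]
    exact div_mem (eval_mem _ B hBL _ (hndL i)) (mul_mem (pow_mem (hndL i) N)
      (prod_mem fun i' _ => sub_mem (hndL i) (hndL i')))
  have hcof : ∀ i, V⁻¹ * c i = Cof j i.1.1 N P (rt i.1.1 i.2) := by
    intro i
    rw [hV, hc]
    exact cof_eq h4 j N P B hevP i
  have hres0 : ∀ i, res ((xx j)⁻¹ * (V⁻¹ * c i)) = 0 := by
    intro i
    rw [hcof]
    obtain ⟨⟨q, hq⟩, b⟩ := i
    cases b
    · have := (hres q hq).1
      simpa [rt] using this
    · have := (hres q hq).2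
      simpa [rt] using this
  have hexp : P.eval (xx j) / (uu (xx j) ^ N *
      ∏ q ∈ univ.filter (fun q => q ≠ j), d2 (uu (xx j)) (uu (xx q)))
      = V⁻¹ * (1 - 2 * xx j) * (S.eval (uu (xx j)) / uu (xx j) ^ N) +
        ∑ i : Io j, (V⁻¹ * c i * (1 - 2 * xx j) / (uu (xx j) - nd j i)
          - ∑ l ∈ Finset.range N, V⁻¹ * c i * nd j i ^ l * (1 - 2 * xx j) /
            uu (xx j) ^ (l + 1)) := by
    have e1 : P.eval (xx j) / (uu (xx j) ^ N *
        ∏ q ∈ univ.filter (fun q => q ≠ j), d2 (uu (xx j)) (uu (xx q)))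
        = V⁻¹ * (1 - 2 * xx j) * (B.eval (uu (xx j)) / (uu (xx j) ^ N *
          ∏ i : Io j, (uu (xx j) - nd j i))) := by
      rw [hprod, ← hV]
      exact alg1 _ _ _ _ _ _ (hevP _)
    rw [e1, hS _ hu0 hus, mul_add, Finset.mul_sum]
    congr 1
    apply Finset.sum_congr rfl
    intro i _
    have hci : B.eval (nd j i) / (nd j i ^ N *
        ∏ i' ∈ univ.filter (fun i' => i' ≠ i), (nd j i - nd j i')) = c i := by rw [hc]
    rw [hci]
    exact alg2 _ _ _ _ _ _
  rw [hexp, res_add h3, res_sum h3]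
  have hA : res (V⁻¹ * (1 - 2 * xx j) * (S.eval (uu (xx j)) / uu (xx j) ^ N)) = 0 := by
    rcases hSd with hS0 | hSd
    · rw [hS0, Polynomial.eval_zero, zero_div, mul_zero]
      exact HahnSeries.coeff_zero
    · rw [Polynomial.eval_eq_sum_range, Finset.sum_div, Finset.mul_sum, res_sum h3]
      apply Finset.sum_eq_zero
      intro m hm
      have hmN : m + 2 ≤ N := by
        have := Finset.mem_range.1 hm
        omega
      rw [alg3 _ _ _ _ (by omega : m ≤ N) hu0]
      exact (h5 k j _ (mul_mem hVL (hSL m))).1 (N - m) (by omega)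
  rw [hA, zero_add]
  apply Finset.sum_eq_zero
  intro i _
  have hfr : V⁻¹ * c i ∈ LF h4 j := mul_mem hVL (hcL i)
  rw [res_sub h3, res_sum h3]
  have r1 : res (V⁻¹ * c i * (1 - 2 * xx j) / (uu (xx j) - nd j i)) = 0 :=
    res_node h1 h2 h3 h4 i.1.2 i.2 _ hfr (hres0 i)
  rw [r1, zero_sub, neg_eq_zero]
  apply Finset.sum_eq_zero
  intro l _
  rcases Nat.eq_zero_or_pos l with rfl | hl
  · rw [pow_zero, mul_one, zero_add, pow_one, (h5 k j _ hfr).2, mul_comm]
    exact hres0 i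
  · exact (h5 k j _ (mul_mem hfr (pow_mem (hndL i) l))).1 (l + 1) (by omega)

end Pool.Agent.H441.GM174
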