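import Pool.Agent.H174.GM.Stmts

set_option autoImplicit false

namespace Pool.Agent.H441.GM174Q

open Finset Pool.Agent.H174.GM

/-- `x` or `1 - x` -/
def zz {R : Type} [CommRing R] (b : Bool) (x : R) : R := if b then 1 - x else x

theorem uu_zz {R : Type} [CommRing R] (b : Bool) (x : R) : uu (zz b x) = uu x := by
  cases b
  · simp [zz]
  · simp only [zz, if_true, uu]; ring

theorem map_zz {R S : Type} [CommRing R] [CommRing S] (f : R →+* S) (b : Bool) (x : R) :
    f (zz b x) = zz b (f x) := by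
  cases b <;> simp [zz]

section indep

variable {K : Type} [Field K] [Algebra ℚ K] {n : ℕ}

theorem ne_of_eval {X : Fin n → K} (hX : AlgebraicIndependent ℚ X)
    (p : MvPolynomial (Fin n) ℚ) (pt : Fin n → ℚ) (h : MvPolynomial.eval pt p ≠ 0) :
    MvPolynomial.aeval X p ≠ 0 := by
  intro h0
  have : p = 0 := hX (by rw [h0, map_zero])
  apply h
  rw [this, map_zero]

theorem uu_ne {X : Fin n → K} (hX : AlgebraicIndependent ℚ X) (q : Fin n) : uu (X q) ≠ 0 := by
  have := ne_of_eval hX (MvPolynomial.X q * (1 - MvPolynomial.X q)) (fun _ => 2) (by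
    simp only [map_mul, map_sub, map_one, MvPolynomial.eval_X]; norm_num)
  simpa [uu] using this

theorem zz_ne {X : Fin n → K} (hX : AlgebraicIndependent ℚ X) (q : Fin n) (b : Bool) :
    zz b (X q) ≠ 0 := by
  intro h
  apply uu_ne hX q
  rw [← uu_zz b, h]
  simp [uu]

theorem node_poly {z z' : K} (hz : z ≠ 0) (hz' : z' ≠ 0) (h : uu z⁻¹ = uu z'⁻¹) :
    (z' - z) * (z + z' - z * z') = 0 := by
  have e1 : uu z⁻¹ * z ^ 2 = z - 1 := by
    simp only [uu]
    field_simp
  have e2 : uu z'⁻¹ * z' ^ 2 = z' - 1 := by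
    simp only [uu]
    field_simp
  rw [h] at e1
  linear_combination z' ^ 2 * e1 - z ^ 2 * e2

theorem node_ne {X : Fin n → K} (hX : AlgebraicIndependent ℚ X) {q q' : Fin n} {b b' : Bool}
    (h : uu (zz b (X q))⁻¹ = uu (zz b' (X q'))⁻¹) : q = q' ∧ b = b' := by
  by_contra hne
  have hp := node_poly (zz_ne hX q b) (zz_ne hX q' b') h
  refine ne_of_eval hX ((zz b' (MvPolynomial.X q') - zz b (MvPolynomial.X q)) *
    (zz b (MvPolynomial.X q) + zz b' (MvPolynomial.X q') -
      zz b (MvPolynomial.X q) * zz b' (MvPolynomial.X q'))) (fun i => if i = q then 2 else 4)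
    ?_ ?_
  · by_cases hq : q' = q
    · subst hq
      cases b <;> cases b'
      · exact absurd ⟨rfl, rfl⟩ hne
      · simp [zz]; norm_num
      · simp [zz]; norm_num
      · exact absurd ⟨rfl, rfl⟩ hne
    · cases b <;> cases b' <;> simp [zz, hq] <;> norm_num
  · rw [← hp]
    cases b <;> cases b' <;> simp [zz]

theorem db_ne {X : Fin n → K} (hX : AlgebraicIndependent ℚ X) : db X ≠ 0 := by
  unfold db
  refine mul_ne_zero (Finset.prod_ne_zero_iff.2 fun i _ => ?_)
    (Finset.prod_ne_zero_iff.2 fun p hp => mul_ne_zero ?_ ?_)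
  · have := ne_of_eval hX (1 - 2 * MvPolynomial.X i) (fun _ => 0) (by simp)
    simpa using this
  · have hlt : p.1 < p.2 := (Finset.mem_filter.1 hp).2
    have := ne_of_eval hX (MvPolynomial.X p.1 - MvPolynomial.X p.2)
      (fun i => if i = p.1 then 1 else 0) (by simp [hlt.ne'])
    simpa using this
  · have := ne_of_eval hX (1 - MvPolynomial.X p.1 - MvPolynomial.X p.2) (fun _ => 0) (by simp)
    simpa using this

theorem d2_ne {X : Fin n → K} (hX : AlgebraicIndependent ℚ X) {i j : Fin n} (h : i ≠ j) :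
    d2 (uu (X i)) (uu (X j)) ≠ 0 := by
  have := ne_of_eval hX (d2 (uu (MvPolynomial.X i)) (uu (MvPolynomial.X j)))
    (fun l => if l = i then 2 else 0) (by simp [d2, uu, h.symm]; norm_num)
  simpa [d2, uu] using this

end indep

section poly

variable {K : Type} [Field K] [Algebra ℚ K] {n : ℕ}

/-- `f` as a polynomial in the first variable -/
noncomputable def FF (t : Fin n → K) (f : MvPolynomial (Fin (n + 1)) ℚ) : Polynomial K :=
  (MvPolynomial.finSuccEquiv ℚ n f).map (MvPolynomial.aeval t).toRingHom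

theorem FF_eval (t : Fin n → K) (f : MvPolynomial (Fin (n + 1)) ℚ) (u : K) :
    (FF t f).eval u = MvPolynomial.aeval (Fin.cons (α := fun _ => K) u t) f := by
  have h : ((Polynomial.eval₂RingHom (MvPolynomial.aeval t).toRingHom u).comp
      (MvPolynomial.finSuccEquiv ℚ n).toRingEquiv.toRingHom)
      = (MvPolynomial.aeval (Fin.cons (α := fun _ => K) u t) :
          MvPolynomial (Fin (n + 1)) ℚ →ₐ[ℚ] K).toRingHom := by
    apply MvPolynomial.ringHom_ext
    · intro r
      simp [MvPolynomial.finSuccEquiv_apply]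
    · intro i
      refine Fin.cases ?_ (fun i => ?_) i
      · simp [MvPolynomial.finSuccEquiv_X_zero]
      · simp [MvPolynomial.finSuccEquiv_X_succ]
  have h2 := congrArg (fun g => g f) h
  simp only [FF, Polynomial.eval_map]
  exact h2

theorem FF_deg (t : Fin n → K) (f : MvPolynomial (Fin (n + 1)) ℚ) :
    (FF t f).natDegree ≤ f.degreeOf 0 := by
  rw [← MvPolynomial.natDegree_finSuccEquiv]
  exact Polynomial.natDegree_map_le

theorem aeval_cons_perm {k : ℕ} (f : MvPolynomial (Fin (k + 2)) ℚ) (hf : f.IsSymmetric)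
    (Y : Fin (k + 1) → K) (q : Fin (k + 1)) (U : K) :
    MvPolynomial.aeval (Fin.cons (α := fun _ => K) U Y) f
      = MvPolynomial.aeval (Fin.cons (α := fun _ => K) U
          (Fin.cons (α := fun _ => K) (Y q) (fun r => Y (q.succAbove r)))) f := by
  have h1 : (Fin.cons (α := fun _ => K) U
      (Fin.cons (α := fun _ => K) (Y q) (fun r => Y (q.succAbove r))) : Fin (k + 2) → K)
      = (Fin.cons (α := fun _ => K) U Y : Fin (k + 2) → K) ∘
        (Equiv.Perm.decomposeFin.symm (0, q.cycleRange.symm) : Equiv.Perm (Fin (k + 2))) := by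
    funext i
    refine Fin.cases ?_ (fun i => ?_) i
    · simp
    · refine Fin.cases ?_ (fun i => ?_) i
      · simp
      · simp
  rw [h1, ← MvPolynomial.aeval_rename, hf]

end poly

theorem step (h1 : S_FAC) (h2 : S_EP) (k : ℕ)
    (ih : ∀ f : MvPolynomial (Fin k) ℚ, IsC k f → ∃ κ : ℚ,
      ∀ (K : Type) [Field K] [Algebra ℚ K] (X : Fin k → K), AlgebraicIndependent ℚ X →
      (MvPolynomial.aeval (fun i => uu (X i)) f) ^ 2 * db X
      = algebraMap ℚ K (κ * (-1) ^ k) * (∏ i, uu (X i)) * dd X * ee X)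
    (f : MvPolynomial (Fin (k + 2)) ℚ) (hf : IsC (k + 2) f) : ∃ κ : ℚ,
      ∀ (K : Type) [Field K] [Algebra ℚ K] (X : Fin (k + 2) → K), AlgebraicIndependent ℚ X →
      (MvPolynomial.aeval (fun i => uu (X i)) f) ^ 2 * db X
      = algebraMap ℚ K (κ * (-1) ^ (k + 2)) * (∏ i, uu (X i)) * dd X * ee X := by
  obtain ⟨f', hf', hfac⟩ := h1 k f hf
  obtain ⟨κ, hκ⟩ := ih f' hf'
  refine ⟨κ, ?_⟩
  intro K _ _ X hX
  obtain ⟨T, hT⟩ : ∃ T, T = X 0 := ⟨_, rfl⟩
  obtain ⟨X', hX'⟩ : ∃ X' : Fin (k + 1) → K, X' = fun i => X i.succ := ⟨_, rfl⟩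
  have hcons : X = Fin.cons (α := fun _ => K) T X' := by
    funext i
    refine Fin.cases ?_ (fun i => ?_) i
    · simp [hT]
    · simp [hX']
  have hI' : AlgebraicIndependent ℚ X' := by
    rw [hX']
    exact hX.comp _ (Fin.succ_injective _)
  obtain ⟨S, hSd, hS1, hS2⟩ := h2 k K X' hI'
  obtain ⟨F, hF⟩ : ∃ F, F = FF (fun i => uu (X' i)) f := ⟨_, rfl⟩
  have hFd : 2 * F.natDegree + 1 ≤ k + 2 := by
    have e1 := hf.deg 0
    have e2 := FF_deg (fun i => uu (X' i)) f
    rw [← hF] at e2
    omega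
  obtain ⟨c, hc⟩ : ∃ c : K, c = algebraMap ℚ K (κ * (-1) ^ k) * ∏ i, uu (X' i) := ⟨_, rfl⟩
  have hclaim : F ^ 2 = Polynomial.C c * S := by
    apply Polynomial.eq_of_degrees_lt_of_eval_index_eq (univ : Finset (Fin (k + 1) × Bool))
      (v := fun i => uu (zz i.2 (X' i.1))⁻¹)
    · rintro ⟨q, b⟩ _ ⟨q', b'⟩ _ h
      obtain ⟨h3, h4⟩ := node_ne hI' h
      exact Prod.ext h3 h4
    · refine (Polynomial.degree_le_natDegree).trans_lt ?_
      have h3 : (F ^ 2).natDegree ≤ 2 * F.natDegree := Polynomial.natDegree_pow_le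
      have h4 : (F ^ 2).natDegree < (univ : Finset (Fin (k + 1) × Bool)).card := by
        rw [Finset.card_univ, Fintype.card_prod, Fintype.card_fin, Fintype.card_bool]
        omega
      exact_mod_cast h4
    · refine (Polynomial.degree_le_natDegree).trans_lt ?_
      have h3 : (Polynomial.C c * S).natDegree ≤ S.natDegree := Polynomial.natDegree_C_mul_le _ _
      have h4 : (Polynomial.C c * S).natDegree <
          (univ : Finset (Fin (k + 1) × Bool)).card := by
        rw [Finset.card_univ, Fintype.card_prod, Fintype.card_fin, Fintype.card_bool]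
        omega
      exact_mod_cast h4
    · rintro ⟨q, b⟩ _
      beta_reduce
      obtain ⟨z, hz⟩ : ∃ z, z = zz b (X' q) := ⟨_, rfl⟩
      have hz0 : z ≠ 0 := by rw [hz]; exact zz_ne hI' q b
      have huz : uu z = uu (X' q) := by rw [hz, uu_zz]
      have hz1 : z = X' q ∨ z = 1 - X' q := by
        rw [hz]
        cases b
        · left; simp [zz]
        · right; simp [zz]
      have hE := hS2 q z hz1
      have hI'' : AlgebraicIndependent ℚ (X' ∘ q.succAbove) :=
        hI'.comp _ Fin.succAbove_right_injective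
      have hk := hκ K (X' ∘ q.succAbove) hI''
      have hfz := hfac K (fun r => uu (X' (q.succAbove r))) z hz0
      have hFz : F.eval (uu z⁻¹) = (∏ r, (1 - uu z⁻¹ * uu z * uu (X' (q.succAbove r)))) *
          MvPolynomial.aeval (fun r => uu (X' (q.succAbove r))) f' := by
        rw [hF, FF_eval, aeval_cons_perm f hf.sym _ q, ← hfz]
        rw [huz]
      rw [← hz, Polynomial.eval_pow, Polynomial.eval_mul, Polynomial.eval_C, hFz]
      apply mul_right_cancel₀ (db_ne hI'')
      have hprod : ∏ i, uu (X' i) = uu z * ∏ r, uu (X' (q.succAbove r)) := by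
        rw [Fin.prod_univ_succAbove _ q, huz]
      rw [Finset.prod_pow] at hE
      rw [hc, hprod]
      simp only [Function.comp_apply] at hk
      generalize (∏ r, (1 - uu z⁻¹ * uu z * uu (X' (q.succAbove r)))) = W at *
      generalize MvPolynomial.aeval (fun r => uu (X' (q.succAbove r))) f' = A at *
      generalize (∏ r, uu (X' (q.succAbove r))) = R at *
      generalize db (X' ∘ q.succAbove) = D at *
      generalize dd (X' ∘ q.succAbove) = G at *
      generalize ee (X' ∘ q.succAbove) = H at *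
      generalize Polynomial.eval (uu z⁻¹) S = s at *
      generalize algebraMap ℚ K (κ * (-1) ^ k) = m at *
      linear_combination W ^ 2 * hk - m * R * hE
  have hev := congrArg (Polynomial.eval (uu T)) hclaim
  rw [Polynomial.eval_pow, Polynomial.eval_mul, Polynomial.eval_C, hF, FF_eval] at hev
  have hT0 : T ≠ 0 := by
    rw [hT]
    intro h
    apply uu_ne hX 0
    rw [h]
    simp [uu]
  have hT1 : T ≠ 1 := by
    rw [hT]
    intro h
    apply uu_ne hX 0
    rw [h]
    simp [uu]
  have hST := hS1 T hT0 hT1 (fun i => by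
    rw [hT, hX']
    exact d2_ne hX (Fin.succ_ne_zero i).symm)
  rw [← hcons] at hST
  have hfe : (fun i => uu (X i)) = (Fin.cons (α := fun _ => K) (uu T) (fun i => uu (X' i)) :
      Fin (k + 2) → K) := by
    funext i
    rw [hcons]
    refine Fin.cases ?_ (fun i => ?_) i
    · simp
    · simp
  have hprod : ∏ i, uu (X i) = uu T * ∏ i, uu (X' i) := by
    rw [Fin.prod_univ_succ, ← hT, hX']
  have hpow : κ * (-1) ^ (k + 2) = κ * (-1) ^ k := by ring
  rw [hpow, hprod, hfe, hev, hc]
  linear_combination -(algebraMap ℚ K (κ * (-1) ^ k) * (∏ i, uu (X' i))) * hST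

theorem base0 (f : MvPolynomial (Fin 0) ℚ) : ∃ κ : ℚ,
      ∀ (K : Type) [Field K] [Algebra ℚ K] (X : Fin 0 → K), AlgebraicIndependent ℚ X →
      (MvPolynomial.aeval (fun i => uu (X i)) f) ^ 2 * db X
      = algebraMap ℚ K (κ * (-1) ^ 0) * (∏ i, uu (X i)) * dd X * ee X := by
  refine ⟨(f.coeff 0) ^ 2, ?_⟩
  intro K _ _ X _
  have hf := MvPolynomial.eq_C_of_isEmpty f
  have hp : pairs 0 = ∅ := by
    ext p
    exact p.1.elim0
  have h1 : MvPolynomial.aeval (fun i => uu (X i)) f = algebraMap ℚ K (f.coeff 0) := by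
    conv_lhs => rw [hf]
    exact MvPolynomial.aeval_C _ _
  have h2 : ee X = 1 := by
    unfold ee
    rw [Fintype.sum_unique]
    simp [sg, gg, hp]
  rw [h1, h2]
  simp [db, dd, hp]

theorem base1 (f : MvPolynomial (Fin 1) ℚ) (hf : IsC 1 f) : ∃ κ : ℚ,
      ∀ (K : Type) [Field K] [Algebra ℚ K] (X : Fin 1 → K), AlgebraicIndependent ℚ X →
      (MvPolynomial.aeval (fun i => uu (X i)) f) ^ 2 * db X
      = algebraMap ℚ K (κ * (-1) ^ 1) * (∏ i, uu (X i)) * dd X * ee X := by
  have hfC : f = MvPolynomial.C (f.coeff 0) := by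
    rw [← MvPolynomial.totalDegree_eq_zero_iff_eq_C, MvPolynomial.totalDegree_eq_zero_iff]
    intro m hm x
    have h1 := hf.deg x
    have h2 : m x ≤ f.degreeOf x := by
      rw [MvPolynomial.degreeOf_eq_sup]
      exact Finset.le_sup (f := fun m : Fin 1 →₀ ℕ => m x) hm
    omega
  refine ⟨(f.coeff 0) ^ 2, ?_⟩
  intro K _ _ X hX
  have hp : pairs 1 = ∅ := by
    rw [pairs, Finset.filter_eq_empty_iff]
    intro p _
    rw [Subsingleton.elim p.1 p.2]
    exact lt_irrefl _
  have h1 : MvPolynomial.aeval (fun i => uu (X i)) f = algebraMap ℚ K (f.coeff 0) := by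
    conv_lhs => rw [hfC]
    exact MvPolynomial.aeval_C _ _
  have hx : X 0 ≠ 0 := by
    intro h
    apply uu_ne hX 0
    rw [h]
    simp [uu]
  have hx1 : 1 - X 0 ≠ 0 := by
    intro h
    apply uu_ne hX 0
    simp [uu, h]
  have h2 : ee X = (1 - X 0)⁻¹ - (X 0)⁻¹ := by
    unfold ee
    rw [← (Equiv.funUnique (Fin 1) Bool).symm.sum_comp]
    rw [Fintype.sum_bool]
    simp [sg, gg, hp, flp]
    ring
  rw [h1, h2]
  simp only [db, dd, hp, Finset.prod_empty, Fin.prod_univ_one, uu]
  rw [map_mul, map_pow, map_pow, map_neg, map_one]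
  field_simp
  ring

theorem q (h1 : S_FAC) (h2 : S_EP) : Pool.Agent.H174.GM.S_Q := by
  intro k
  induction k using Nat.twoStepInduction with
  | zero => exact fun f _ => base0 f
  | one => exact base1
  | more k ih _ => exact step h1 h2 k ih

end Pool.Agent.H441.GM174Q
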